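import Mathlib

/-!
# Roots of integral unitriangular matrices have bounded denominators
-/

set_option autoImplicit false

namespace Pool.Agent.R189.NC

open Finset Matrix

/-- real matrices -/
abbrev Md (d : ℕ) := Matrix (Fin d) (Fin d) ℝ

/-- `A` is upper triangular, with ones on the diagonal. -/
def Uni {d : ℕ} (A : Md d) : Prop := ∀ i j : Fin d, j ≤ i → A i j = if i = j then 1 else 0

/-- `P ^ e * x` is an integer. -/
def Q (P : ℕ) (x : ℝ) (e : ℕ) : Prop := ∃ z : ℤ, (P : ℝ) ^ e * x = z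

namespace Q

variable {P : ℕ} {x y : ℝ} {e f : ℕ}

theorem zero : Q P 0 e := ⟨0, by simp⟩

theorem add (hx : Q P x e) (hy : Q P y e) : Q P (x + y) e := by
  obtain ⟨a, ha⟩ := hx
  obtain ⟨b, hb⟩ := hy
  exact ⟨a + b, by rw [mul_add, ha, hb]; push_cast; ring⟩

theorem sub (hx : Q P x e) (hy : Q P y e) : Q P (x - y) e := by
  obtain ⟨a, ha⟩ := hx
  obtain ⟨b, hb⟩ := hy
  exact ⟨a - b, by rw [mul_sub, ha, hb]; push_cast; ring⟩

theorem mul (hx : Q P x e) (hy : Q P y f) : Q P (x * y) (e + f) := by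
  obtain ⟨a, ha⟩ := hx
  obtain ⟨b, hb⟩ := hy
  exact ⟨a * b, by push_cast; rw [← ha, ← hb]; ring⟩

theorem mono (hx : Q P x e) (h : e ≤ f) : Q P x f := by
  obtain ⟨a, ha⟩ := hx
  refine ⟨(P : ℤ) ^ (f - e) * a, ?_⟩
  push_cast
  rw [← ha, ← mul_assoc, ← pow_add, Nat.sub_add_cancel h]

theorem nat (n : ℕ) (hx : Q P x e) : Q P (n * x) e := by
  obtain ⟨a, ha⟩ := hx
  exact ⟨n * a, by push_cast; rw [← ha]; ring⟩

theorem sum {ι : Type*} (s : Finset ι) (g : ι → ℝ) (h : ∀ i ∈ s, Q P (g i) e) :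
    Q P (∑ i ∈ s, g i) e := by
  classical
  induction s using Finset.induction_on with
  | empty => simpa using zero
  | insert a s ha ih =>
    rw [Finset.sum_insert ha]
    exact (h a (mem_insert_self a s)).add (ih fun i hi => h i (mem_insert_of_mem hi))

end Q

variable {d : ℕ}

theorem Uni.one : Uni (1 : Md d) := fun _ _ _ => Matrix.one_apply

theorem Uni.mul {A B : Md d} (hA : Uni A) (hB : Uni B) : Uni (A * B) := by
  intro i j hji
  rw [Matrix.mul_apply, Finset.sum_eq_single i]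
  · rw [hA i i le_rfl, if_pos rfl, one_mul, hB i j hji]
  · intro k _ hk
    rcases lt_or_gt_of_ne hk with h | h
    · rw [hA i k h.le, if_neg (Ne.symm hk), zero_mul]
    · have h2 : k ≠ j := by
        intro e
        rw [e] at h
        exact absurd h (not_lt.2 hji)
      rw [hB k j (hji.trans h.le), if_neg h2, mul_zero]
  · intro h
    exact absurd (mem_univ i) h

theorem Uni.pow {A : Md d} (hA : Uni A) (n : ℕ) : Uni (A ^ n) := by
  induction n with
  | zero => rw [pow_zero]; exact Uni.one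
  | succ n ih => rw [pow_succ]; exact ih.mul hA

theorem Uni.det {A : Md d} (hA : Uni A) : A.det = 1 := by
  have h0 : A.IsUpperTriangular := by
    intro i j hij
    have h1 : j < i := hij
    rw [hA i j h1.le, if_neg (ne_of_gt h1)]
  rw [Matrix.det_of_isUpperTriangular h0]
  exact Finset.prod_eq_one fun i _ => by rw [hA i i le_rfl, if_pos rfl]

/-- The bounds for the denominators of an `N`-th root. -/
theorem root_den (N D : ℕ) (A : Md d) (hA : Uni A)
    (h : ∀ i j, ∃ z : ℤ, (D : ℝ) * (A ^ N) i j = z) :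
    ∀ s : ℕ, ∀ i j : Fin d, (j : ℕ) = i + (s + 1) →
      (∀ n : ℕ, Q (N * D) ((A ^ n) i j - n * A i j) (2 * s)) ∧ Q (N * D) (A i j) (2 * s + 1) := by
  intro s
  induction s using Nat.strong_induction_on with
  | _ s ih =>
    intro i j hij
    have hne : i ≠ j := by
      intro e
      rw [e] at hij
      omega
    have h1 : ∀ n : ℕ, Q (N * D) ((A ^ n) i j - n * A i j) (2 * s) := by
      intro n
      induction n with
      | zero =>
        have e : (A ^ 0) i j - ((0 : ℕ) : ℝ) * A i j = 0 := by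
          rw [pow_zero, Matrix.one_apply_ne hne]
          simp
        rw [e]
        exact Q.zero
      | succ n ihn =>
        have e : (A ^ (n + 1)) i j - ((n + 1 : ℕ) : ℝ) * A i j =
            ((A ^ n) i j - n * A i j) +
              ∑ k ∈ (univ.erase i).erase j, (A ^ n) i k * A k j := by
          rw [pow_succ, Matrix.mul_apply, ← Finset.add_sum_erase univ _ (mem_univ i),
            ← Finset.add_sum_erase (univ.erase i) _ (mem_erase.2 ⟨hne.symm, mem_univ j⟩),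
            (hA.pow n) i i le_rfl, hA j j le_rfl, if_pos rfl, if_pos rfl]
          push_cast
          ring
        rw [e]
        refine ihn.add (Q.sum _ _ fun k hk => ?_)
        have hkj : k ≠ j := (mem_erase.1 hk).1
        have hki : k ≠ i := (mem_erase.1 (mem_erase.1 hk).2).1
        rcases lt_or_gt_of_ne hki with h2 | h2
        · rw [(hA.pow n) i k h2.le, if_neg hki.symm, zero_mul]
          exact Q.zero
        rcases lt_or_gt_of_ne hkj with h3 | h3
        · have h2' : (i : ℕ) < k := h2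
          have h3' : (k : ℕ) < j := h3
          obtain ⟨s1, hs1⟩ : ∃ s1, (k : ℕ) = i + (s1 + 1) := ⟨k - i - 1, by omega⟩
          obtain ⟨s2, hs2⟩ : ∃ s2, (j : ℕ) = k + (s2 + 1) := ⟨j - k - 1, by omega⟩
          have hs : s1 + s2 + 1 = s := by omega
          obtain ⟨a1, a2⟩ := ih s1 (by omega) i k hs1
          obtain ⟨-, b2⟩ := ih s2 (by omega) k j hs2
          have c1 : Q (N * D) ((A ^ n) i k) (2 * s1 + 1) := by
            have := ((a1 n).mono (by omega : 2 * s1 ≤ 2 * s1 + 1)).add (a2.nat n)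
            rwa [sub_add_cancel] at this
          exact (c1.mul b2).mono (by omega)
        · rw [hA k j h3.le, if_neg hkj, mul_zero]
          exact Q.zero
    refine ⟨h1, ?_⟩
    obtain ⟨z, hz⟩ := h i j
    obtain ⟨w, hw⟩ := h1 N
    refine ⟨(((N * D : ℕ) : ℤ)) ^ (2 * s) * z - D * w, ?_⟩
    push_cast
    push_cast at hw
    rw [← hz, ← hw]
    ring

/-- the diagonal matrix with the entries `M ^ i` -/
noncomputable def Dl (d M : ℕ) : Md d := Matrix.diagonal fun i => (M : ℝ) ^ (i : ℕ)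

/-- the real matrix with given integer entries -/
noncomputable def toR (B : Matrix (Fin d) (Fin d) ℤ) : Md d := (Int.castRingHom ℝ).mapMatrix B

theorem toR_apply (B : Matrix (Fin d) (Fin d) ℤ) (i j : Fin d) : toR B i j = (B i j : ℝ) := rfl

theorem toR_mul (B C : Matrix (Fin d) (Fin d) ℤ) : toR (B * C) = toR B * toR C := map_mul _ _ _

theorem toR_one : toR (1 : Matrix (Fin d) (Fin d) ℤ) = 1 := map_one _

theorem toR_pow (B : Matrix (Fin d) (Fin d) ℤ) (n : ℕ) : toR (B ^ n) = toR B ^ n := map_pow _ _ _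

theorem toR_det (B : Matrix (Fin d) (Fin d) ℤ) : (toR B).det = (B.det : ℝ) :=
  (RingHom.map_det (Int.castRingHom ℝ) B).symm

/-- `A = Δ B Δ⁻¹` for the integer matrix `B`, `Δ = diag(M ^ i)`. -/
def Den (M : ℕ) (A : Md d) (B : Matrix (Fin d) (Fin d) ℤ) : Prop := A * Dl d M = Dl d M * toR B

theorem den_iff {M : ℕ} {A : Md d} {B : Matrix (Fin d) (Fin d) ℤ} :
    Den M A B ↔ ∀ i j : Fin d, A i j * (M : ℝ) ^ (j : ℕ) = (M : ℝ) ^ (i : ℕ) * (B i j : ℝ) := by
  unfold Den Dl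
  rw [← Matrix.ext_iff]
  simp only [Matrix.mul_diagonal, Matrix.diagonal_mul, toR_apply]

theorem Den.one (M : ℕ) : Den M (1 : Md d) 1 := by
  unfold Den
  rw [toR_one, one_mul, mul_one]

theorem Den.mul {M : ℕ} {A A' : Md d} {B B' : Matrix (Fin d) (Fin d) ℤ} (h : Den M A B)
    (h' : Den M A' B') : Den M (A * A') (B * B') := by
  unfold Den at *
  rw [mul_assoc, h', ← mul_assoc, h, toR_mul, mul_assoc]

theorem Den.pow {M : ℕ} {A : Md d} {B : Matrix (Fin d) (Fin d) ℤ} (h : Den M A B) (n : ℕ) :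
    Den M (A ^ n) (B ^ n) := by
  induction n with
  | zero => rw [pow_zero, pow_zero]; exact Den.one M
  | succ n ih => rw [pow_succ, pow_succ]; exact ih.mul h

theorem Dl_det {M : ℕ} (hM : 1 ≤ M) : (Dl d M).det ≠ 0 := by
  unfold Dl
  rw [Matrix.det_diagonal]
  exact Finset.prod_ne_zero_iff.2 fun i _ => pow_ne_zero _ (by positivity)

theorem Dl_cancel {M : ℕ} (hM : 1 ≤ M) {A B : Md d} (h : A * Dl d M = B * Dl d M) : A = B := by
  have h1 : IsUnit (Dl d M).det := (Dl_det hM).isUnit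
  calc A = A * Dl d M * (Dl d M)⁻¹ := (Matrix.mul_nonsing_inv_cancel_right _ _ h1).symm
    _ = B * Dl d M * (Dl d M)⁻¹ := by rw [h]
    _ = B := Matrix.mul_nonsing_inv_cancel_right _ _ h1

theorem Den.det {M : ℕ} (hM : 1 ≤ M) {A : Md d} {B : Matrix (Fin d) (Fin d) ℤ} (h : Den M A B)
    (hA : A.det = 1) : B.det = 1 := by
  have h1 := congrArg Matrix.det h
  rw [Matrix.det_mul, Matrix.det_mul, hA, one_mul, toR_det] at h1
  have h2 : (Dl d M).det * 1 = (Dl d M).det * (B.det : ℝ) := by rw [mul_one]; exact h1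
  have h3 := mul_left_cancel₀ (Dl_det hM) h2
  exact_mod_cast h3.symm

theorem Den.inv {M : ℕ} (hM : 1 ≤ M) {A A' : Md d} {B : Matrix (Fin d) (Fin d) ℤ} (h : Den M A B)
    (hA : A.det = 1) (hAA : A' * A = 1) : ∃ B', Den M A' B' ∧ B' * B = 1 := by
  have hB := h.det hM hA
  have h1 : B * B.adjugate = 1 := by rw [Matrix.mul_adjugate, hB, one_smul]
  have h2 : B.adjugate * B = 1 := by rw [Matrix.adjugate_mul, hB, one_smul]
  refine ⟨B.adjugate, ?_, h2⟩
  have h3 : Dl d M = A * Dl d M * toR B.adjugate := by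
    rw [h, mul_assoc, ← toR_mul, h1, toR_one, mul_one]
  calc A' * Dl d M = A' * (A * Dl d M * toR B.adjugate) := by rw [← h3]
    _ = (A' * A) * (Dl d M * toR B.adjugate) := by simp only [mul_assoc]
    _ = Dl d M * toR B.adjugate := by rw [hAA, one_mul]

/-- Roots of matrices with bounded denominators have bounded denominators. -/
theorem den_of_root (N D : ℕ) (hN : 1 ≤ N) (hD : 1 ≤ D) (A : Md d) (hA : Uni A)
    (h : ∀ i j, ∃ z : ℤ, (D : ℝ) * (A ^ N) i j = z) : ∃ B, Den ((N * D) ^ 2) A B := by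
  have h1 := root_den N D A hA h
  have hP : ((N * D : ℕ) : ℝ) ≠ 0 := by
    have : 0 < N * D := Nat.mul_pos hN hD
    positivity
  have h2 : ∀ i j : Fin d, ∃ b : ℤ,
      A i j * (((N * D) ^ 2 : ℕ) : ℝ) ^ (j : ℕ) = (((N * D) ^ 2 : ℕ) : ℝ) ^ (i : ℕ) * (b : ℝ) := by
    intro i j
    rcases le_or_gt j i with h3 | h3
    · refine ⟨if i = j then 1 else 0, ?_⟩
      rw [hA i j h3]
      by_cases e : i = j
      · rw [if_pos e, if_pos e, e]
        push_cast
        ring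
      · rw [if_neg e, if_neg e]
        simp
    · have h3' : (i : ℕ) < j := h3
      obtain ⟨s, hs⟩ : ∃ s, (j : ℕ) = i + (s + 1) := ⟨j - i - 1, by omega⟩
      obtain ⟨z, hz⟩ := (h1 s i j hs).2.mono (by omega : 2 * s + 1 ≤ 2 * (s + 1))
      refine ⟨z, ?_⟩
      rw [← hz, hs]
      push_cast
      ring
  choose B hB using h2
  exact ⟨Matrix.of fun i j => B i j, den_iff.2 hB⟩

/-- Unitriangular rational matrices have the form `Δ B Δ⁻¹`. -/
theorem den_of_rat (A : Md d) (hA : Uni A) (h : ∀ i j, ∃ x : ℚ, A i j = x) :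
    ∃ M : ℕ, 1 ≤ M ∧ ∃ B, Den M A B := by
  choose x hx using h
  obtain ⟨M, hM⟩ : ∃ M : ℕ, M = ∏ i, ∏ j, (x i j).den := ⟨_, rfl⟩
  have hM1 : 1 ≤ M := by
    rw [hM]
    exact Finset.prod_pos fun i _ => Finset.prod_pos fun j _ => (x i j).pos
  have hdvd : ∀ i j, (x i j).den ∣ M := by
    intro i j
    rw [hM]
    exact (Finset.dvd_prod_of_mem (fun j => (x i j).den) (mem_univ j)).trans
      (Finset.dvd_prod_of_mem (fun i => ∏ j, (x i j).den) (mem_univ i))
  have hz : ∀ i j, ∃ z : ℤ, (M : ℝ) * A i j = z := by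
    intro i j
    obtain ⟨c, hc⟩ := hdvd i j
    refine ⟨c * (x i j).num, ?_⟩
    rw [hx i j, hc]
    have h1 : ((x i j).den : ℚ) * x i j = (x i j).num := by
      rw [mul_comm]
      exact Rat.mul_den_eq_num _
    have h2 : (((x i j).den : ℝ)) * ((x i j : ℚ) : ℝ) = ((x i j).num : ℝ) := by exact_mod_cast h1
    push_cast
    rw [← h2]
    ring
  refine ⟨M, hM1, ?_⟩
  have h2 : ∀ i j : Fin d, ∃ b : ℤ, A i j * (M : ℝ) ^ (j : ℕ) = (M : ℝ) ^ (i : ℕ) * (b : ℝ) := by
    intro i j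
    rcases le_or_gt j i with h3 | h3
    · refine ⟨if i = j then 1 else 0, ?_⟩
      rw [hA i j h3]
      by_cases e : i = j
      · rw [if_pos e, if_pos e, e]
        push_cast
        ring
      · rw [if_neg e, if_neg e]
        simp
    · have h3' : (i : ℕ) < j := h3
      obtain ⟨s, hs⟩ : ∃ s, (j : ℕ) = i + (s + 1) := ⟨j - i - 1, by omega⟩
      obtain ⟨z, hz⟩ := hz i j
      refine ⟨M ^ s * z, ?_⟩
      push_cast
      rw [← hz, hs]
      ring
  choose B hB using h2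
  exact ⟨Matrix.of fun i j => B i j, den_iff.2 hB⟩

/-- Conversely, such matrices have rational entries. -/
theorem Den.rat {M : ℕ} (hM : 1 ≤ M) {A : Md d} {B : Matrix (Fin d) (Fin d) ℤ} (h : Den M A B)
    (i j : Fin d) : ∃ x : ℚ, A i j = x := by
  have h1 := den_iff.1 h i j
  refine ⟨(M : ℚ) ^ (i : ℕ) * (B i j : ℚ) / (M : ℚ) ^ (j : ℕ), ?_⟩
  have hM0 : (M : ℝ) ^ (j : ℕ) ≠ 0 := pow_ne_zero _ (by positivity)
  push_cast
  rw [← h1, mul_div_assoc, div_self hM0, mul_one]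

/-- If `B ≡ 1` modulo `q M ^ d`, then `Δ B Δ⁻¹ ≡ 1` modulo `q`. -/
theorem Den.cong {M q : ℕ} (hM : 1 ≤ M) {A : Md d} {B : Matrix (Fin d) (Fin d) ℤ}
    (h : Den M A B) (hB : ∀ i j, ((q * M ^ d : ℕ) : ℤ) ∣ B i j - (1 : Matrix (Fin d) (Fin d) ℤ) i j)
    (i j : Fin d) : ∃ z : ℤ, A i j - (1 : Md d) i j = q * z := by
  have h1 := den_iff.1 h i j
  obtain ⟨c, hc⟩ := hB i j
  have hMM : (M : ℝ) ≠ 0 := by positivity
  have hM0 : (M : ℝ) ^ (j : ℕ) ≠ 0 := pow_ne_zero _ hMM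
  have h2 : (B i j : ℝ) = (1 : Matrix (Fin d) (Fin d) ℤ) i j + (q * M ^ d : ℝ) * c := by
    have : B i j = (1 : Matrix (Fin d) (Fin d) ℤ) i j + ((q * M ^ d : ℕ) : ℤ) * c := by
      rw [← hc]; ring
    rw [this]
    push_cast
    ring
  have h3 : (((1 : Matrix (Fin d) (Fin d) ℤ) i j : ℤ) : ℝ) = (1 : Md d) i j := by
    by_cases e : i = j
    · rw [e, Matrix.one_apply_eq, Matrix.one_apply_eq]
      norm_num
    · rw [Matrix.one_apply_ne e, Matrix.one_apply_ne e]
      norm_num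
  have hj : (j : ℕ) ≤ (i : ℕ) + d := by
    have := j.2
    omega
  refine ⟨(M : ℤ) ^ ((i : ℕ) + d - j) * c, ?_⟩
  have h4 : (M : ℝ) ^ (i : ℕ) * (1 : Md d) i j = (1 : Md d) i j * (M : ℝ) ^ (j : ℕ) := by
    by_cases e : i = j
    · rw [e]
      ring
    · rw [Matrix.one_apply_ne e]
      ring
  have h5 : (A i j - (1 : Md d) i j) * (M : ℝ) ^ (j : ℕ) =
      ((q : ℝ) * ((M : ℝ) ^ ((i : ℕ) + d - j) * c)) * (M : ℝ) ^ (j : ℕ) := by
    rw [sub_mul, h1, h2, h3, mul_add, h4]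
    have h6 : (M : ℝ) ^ ((i : ℕ) + d - j) * (M : ℝ) ^ (j : ℕ) = (M : ℝ) ^ (i : ℕ) * (M : ℝ) ^ d := by
      rw [← pow_add, ← pow_add, Nat.sub_add_cancel hj]
    calc _ = (q : ℝ) * c * ((M : ℝ) ^ (i : ℕ) * (M : ℝ) ^ d) := by ring
      _ = (q : ℝ) * c * ((M : ℝ) ^ ((i : ℕ) + d - j) * (M : ℝ) ^ (j : ℕ)) := by rw [h6]
      _ = _ := by ring
  have h6 := mul_right_cancel₀ hM0 h5
  rw [h6]
  push_cast
  ring

/-- Some power of a matrix `Δ B Δ⁻¹` is congruent to `1` modulo `q`. -/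
theorem Den.exists_pow {M q : ℕ} (hM : 1 ≤ M) (hq : 1 ≤ q) {A : Md d}
    {B : Matrix (Fin d) (Fin d) ℤ} (h : Den M A B) (hA : A.det = 1) :
    ∃ k : ℕ, 1 ≤ k ∧ ∀ i j, ∃ z : ℤ, (A ^ k) i j - (1 : Md d) i j = q * z := by
  obtain ⟨K, hK⟩ : ∃ K : ℕ, K = q * M ^ d := ⟨_, rfl⟩
  have hK0 : K ≠ 0 := by
    rw [hK]
    have : 0 < q * M ^ d := Nat.mul_pos hq (Nat.pow_pos hM)
    omega
  have : NeZero K := ⟨hK0⟩
  have hB := h.det hM hA
  let π := (Int.castRingHom (ZMod K)).mapMatrix (m := Fin d)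
  let u : (Matrix (Fin d) (Fin d) (ZMod K))ˣ :=
    { val := π B
      inv := π B.adjugate
      val_inv := by rw [← map_mul, Matrix.mul_adjugate, hB, one_smul, map_one]
      inv_val := by rw [← map_mul, Matrix.adjugate_mul, hB, one_smul, map_one] }
  have hu : u ^ Nat.card (Matrix (Fin d) (Fin d) (ZMod K))ˣ = 1 := pow_card_eq_one'
  refine ⟨Nat.card (Matrix (Fin d) (Fin d) (ZMod K))ˣ, Nat.card_pos, ?_⟩
  obtain ⟨k, hk⟩ : ∃ k, k = Nat.card (Matrix (Fin d) (Fin d) (ZMod K))ˣ := ⟨_, rfl⟩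
  rw [← hk] at hu ⊢
  have h1 : π (B ^ k) = 1 := by
    rw [map_pow]
    have := congrArg Units.val hu
    rwa [Units.val_pow_eq_pow_val, Units.val_one] at this
  refine (h.pow k).cong hM fun i j => ?_
  rw [← hK]
  have h2 := congrFun (congrFun h1 i) j
  have h3 : (((B ^ k) i j - (1 : Matrix (Fin d) (Fin d) ℤ) i j : ℤ) : ZMod K) = 0 := by
    rw [Int.cast_sub]
    have e1 : (((B ^ k) i j : ℤ) : ZMod K) = π (B ^ k) i j := rfl
    have e2 : (((1 : Matrix (Fin d) (Fin d) ℤ) i j : ℤ) : ZMod K) = (1 : Matrix _ _ (ZMod K)) i j := by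
      by_cases e : i = j
      · rw [e, Matrix.one_apply_eq, Matrix.one_apply_eq]
        norm_num
      · rw [Matrix.one_apply_ne e, Matrix.one_apply_ne e]
        norm_num
    rw [e1, e2, h2, sub_self]
  exact (ZMod.intCast_zmod_eq_zero_iff_dvd _ K).1 h3

end Pool.Agent.R189.NC
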