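import Pool.Agent.H66.L.S8.R189.NC.Arith

/-!
# Arithmetic subgroups of unipotent groups, and affine maps of `G / Γ` at rational points
-/

set_option autoImplicit false

open scoped ContDiff

namespace Pool.Agent.R189.NC

open Finset Matrix

variable {G : Type} [Group G] {d : ℕ}

/-- The elements of the subgroup `Γ` of `G` have bounded denominators in the representation `ι`, and `Γ`
contains all `g` with `ι g ≡ 1` modulo some `q ≥ 1`: it is commensurable with the group of the integral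
elements of `G`. -/
structure IsArith (ι : G →* Md d) (Γ : Subgroup G) : Prop where
  den : ∃ D : ℕ, 1 ≤ D ∧ ∀ g ∈ Γ, ∀ a b, ∃ z : ℤ, (D : ℝ) * ι g a b = z
  cong : ∃ q : ℕ, 1 ≤ q ∧ ∀ g, (∀ a b, ∃ z : ℤ, ι g a b - (1 : Md d) a b = q * z) → g ∈ Γ

/-- all entries of `ι g` are rational -/
def IsRat (ι : G →* Md d) (g : G) : Prop := ∀ a b, ∃ x : ℚ, ι g a b = x

variable {ι : G →* Md d} (hU : ∀ g, Uni (ι g)) {Γ : Subgroup G} (hΓ : IsArith ι Γ)

theorem IsRat.one : IsRat ι (1 : G) := by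
  intro a b
  rw [map_one]
  by_cases h : a = b
  · exact ⟨1, by rw [h, Matrix.one_apply_eq]; norm_num⟩
  · exact ⟨0, by rw [Matrix.one_apply_ne h]; norm_num⟩

theorem IsRat.mul {g h : G} (hg : IsRat ι g) (hh : IsRat ι h) : IsRat ι (g * h) := by
  intro a b
  choose x hx using hg
  choose y hy using hh
  refine ⟨∑ k, x a k * y k b, ?_⟩
  rw [map_mul, Matrix.mul_apply]
  push_cast
  exact Finset.sum_congr rfl fun k _ => by rw [hx, hy]

include hU in
theorem den_root {N : ℕ} (hN : 1 ≤ N) {D : ℕ} (hD : 1 ≤ D)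
    (h : ∀ g ∈ Γ, ∀ a b, ∃ z : ℤ, (D : ℝ) * ι g a b = z) {g : G} (hg : g ^ N ∈ Γ) :
    ∃ B, Den ((N * D) ^ 2) (ι g) B := by
  refine den_of_root N D hN hD (ι g) (hU g) fun i j => ?_
  rw [← map_pow]
  exact h _ hg i j

include hU hΓ in
theorem rat_of_root {N : ℕ} (hN : 1 ≤ N) {g : G} (hg : g ^ N ∈ Γ) : IsRat ι g := by
  obtain ⟨D, hD, hd⟩ := hΓ.den
  obtain ⟨B, hB⟩ := den_root hU hN hD hd hg
  intro a b
  exact hB.rat (Nat.pow_pos (Nat.mul_pos hN hD)) a b

include hU hΓ in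
theorem exists_pow_mem {g : G} (hg : IsRat ι g) : ∃ N : ℕ, 1 ≤ N ∧ g ^ N ∈ Γ := by
  obtain ⟨q, hq, hc⟩ := hΓ.cong
  obtain ⟨M, hM, B, hB⟩ := den_of_rat (ι g) (hU g) hg
  obtain ⟨k, hk, h⟩ := hB.exists_pow hM hq (hU g).det
  exact ⟨k, hk, hc _ (by rw [map_pow]; exact h)⟩

/-- a smooth one parameter subgroup -/
structure IsOne (ι : G →* Md d) (c : ℝ → G) : Prop where
  smooth : ∀ a b, ContDiff ℝ ∞ fun t => ι (c t) a b
  add : ∀ s t, c (s + t) = c s * c t

theorem one_zero {c : ℝ → G} (hc : ∀ s t, c (s + t) = c s * c t) : c 0 = 1 := by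
  have h1 := hc 0 0
  rw [add_zero] at h1
  exact (mul_eq_left.1 h1.symm)

theorem one_pow {c : ℝ → G} (hc : ∀ s t, c (s + t) = c s * c t) (x : ℚ) :
    c x ^ x.den = c 1 ^ x.num := by
  let f : Multiplicative ℝ →* G :=
    { toFun := fun t => c (Multiplicative.toAdd t)
      map_one' := one_zero hc
      map_mul' := fun s t => hc _ _ }
  have h1 : f (Multiplicative.ofAdd (x : ℝ)) ^ x.den = f (Multiplicative.ofAdd (x.den • (x : ℝ))) := by
    rw [← map_pow, ofAdd_nsmul]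
  have h2 : f (Multiplicative.ofAdd (1 : ℝ)) ^ x.num =
      f (Multiplicative.ofAdd (x.num • (1 : ℝ))) := by
    rw [← map_zpow, ofAdd_zsmul]
  have h3 : x.den • (x : ℝ) = x.num • (1 : ℝ) := by
    have h4 : (x.den : ℚ) * x = x.num := by
      rw [mul_comm]
      exact Rat.mul_den_eq_num _
    rw [nsmul_eq_mul, zsmul_eq_mul, mul_one]
    exact_mod_cast h4
  have h5 := h1
  rw [h3, ← h2] at h5
  exact h5

include hU hΓ in
theorem rat_one {c : ℝ → G} (hc : ∀ s t, c (s + t) = c s * c t) (h1 : c 1 ∈ Γ) (x : ℚ) :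
    IsRat ι (c x) := by
  refine rat_of_root hU hΓ x.pos (g := c x) ?_
  rw [one_pow hc]
  exact Γ.zpow_mem h1 _

include hU in
theorem inv_den {M : ℕ} (hM : 1 ≤ M) {g : G} {B : Matrix (Fin d) (Fin d) ℤ} (h : Den M (ι g) B) :
    ∃ B', Den M (ι g⁻¹) B' ∧ B' * B = 1 :=
  h.inv hM (hU g).det (by rw [← map_mul, inv_mul_cancel, map_one])

include hU in
theorem mem_of_cong {q M : ℕ} (hM : 1 ≤ M)
    (hc : ∀ g, (∀ a b, ∃ z : ℤ, ι g a b - (1 : Md d) a b = q * z) → g ∈ Γ) {g g' : G}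
    {B B' : Matrix (Fin d) (Fin d) ℤ} (h : Den M (ι g) B) (h' : Den M (ι g') B')
    (hBB : ∀ i j, ((q * M ^ d : ℕ) : ℤ) ∣ B' i j - B i j) : g⁻¹ * g' ∈ Γ := by
  obtain ⟨C, hC, hCB⟩ := inv_den hU hM h
  have h1 : Den M (ι (g⁻¹ * g')) (C * B') := by
    rw [map_mul]
    exact hC.mul h'
  refine hc _ (h1.cong hM fun i j => ?_)
  have h2 : (C * B') i j - (1 : Matrix (Fin d) (Fin d) ℤ) i j =
      ∑ k, C i k * (B' k j - B k j) := by
    rw [← hCB, Matrix.mul_apply, Matrix.mul_apply, ← Finset.sum_sub_distrib]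
    exact Finset.sum_congr rfl fun k _ => by ring
  rw [h2]
  exact Finset.dvd_sum fun k _ => (hBB k j).mul_left _

include hU hΓ in
theorem finite_image {N : Type*} (p : G → N) (hp : ∀ g g', g⁻¹ * g' ∈ Γ → p g = p g') {M : ℕ}
    (hM : 1 ≤ M) : (p '' {g | ∃ B, Den M (ι g) B}).Finite := by
  classical
  obtain ⟨q, hq, hc⟩ := hΓ.cong
  obtain ⟨K, hK⟩ : ∃ K : ℕ, K = q * M ^ d := ⟨_, rfl⟩
  have hK0 : K ≠ 0 := by
    rw [hK]
    have : 0 < q * M ^ d := Nat.mul_pos hq (Nat.pow_pos hM)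
    omega
  have : NeZero K := ⟨hK0⟩
  let R := Matrix (Fin d) (Fin d) (ZMod K)
  let P : G → R → Prop := fun g r =>
    ∃ B, Den M (ι g) B ∧ (Int.castRingHom (ZMod K)).mapMatrix (m := Fin d) B = r
  have hkey : ∀ g g' r, P g r → P g' r → p g = p g' := by
    rintro g g' r ⟨B, hB, hr⟩ ⟨B', hB', hr'⟩
    refine hp _ _ (mem_of_cong hU hM hc hB hB' fun i j => ?_)
    rw [← hK]
    have h1 : (((B' i j - B i j : ℤ)) : ZMod K) = 0 := by
      have h2 := congrFun (congrFun (hr'.trans hr.symm) i) j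
      have h3 : ((B' i j : ℤ) : ZMod K) = ((B i j : ℤ) : ZMod K) := h2
      rw [Int.cast_sub, h3, sub_self]
    exact (ZMod.intCast_zmod_eq_zero_iff_dvd _ K).1 h1
  let σ : R → N := fun r => if h : ∃ g, P g r then p h.choose else p 1
  refine (Set.finite_range σ).subset ?_
  rintro _ ⟨g, ⟨B, hB⟩, rfl⟩
  have hP : P g ((Int.castRingHom (ZMod K)).mapMatrix (m := Fin d) B) := ⟨B, hB, rfl⟩
  refine ⟨(Int.castRingHom (ZMod K)).mapMatrix (m := Fin d) B, ?_⟩
  have hex : ∃ g, P g ((Int.castRingHom (ZMod K)).mapMatrix (m := Fin d) B) := ⟨g, hP⟩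
  show (if h : ∃ g, P g _ then p h.choose else p 1) = p g
  rw [dif_pos hex]
  exact hkey _ _ _ hex.choose_spec hP

include hU hΓ in
/-- The points `p g` with rational `g` are periodic for the affine maps with rational translation part. -/
theorem periodic_of_rat {N : Type*} (f : N → N) (hf : Function.Injective f) (p : G → N)
    (hp : ∀ g g', p g = p g' ↔ g⁻¹ * g' ∈ Γ) (φ : G →* G) (h : G) (hfp : ∀ g, f (p g) = p (h * φ g))
    (hrat : IsRat ι h) : ∃ k : ℕ, 1 ≤ k ∧ f^[k] (p 1) = p 1 := by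
  have hφ : ∀ g ∈ Γ, φ g ∈ Γ := by
    intro g hg
    have h1 : p 1 = p g := (hp _ _).2 (by rw [inv_one, one_mul]; exact hg)
    have h2 := congrArg f h1
    rw [hfp, hfp, map_one, mul_one] at h2
    have h3 := (hp _ _).1 h2
    rwa [inv_mul_cancel_left] at h3
  obtain ⟨N, hN, hhN⟩ := exists_pow_mem hU hΓ hrat
  obtain ⟨D, hD, hd⟩ := hΓ.den
  have hM : 1 ≤ (N * D) ^ 2 := Nat.pow_pos (Nat.mul_pos hN hD)
  obtain ⟨Γ', hΓ'⟩ : ∃ Γ' : Subgroup G, Γ' = Subgroup.closure {g | g ^ N ∈ Γ} := ⟨_, rfl⟩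
  have hden : ∀ g ∈ Γ', ∃ B, Den ((N * D) ^ 2) (ι g) B := by
    intro g hg
    rw [hΓ'] at hg
    induction hg using Subgroup.closure_induction with
    | mem g hg => exact den_root hU hN hD hd hg
    | one => exact ⟨1, by rw [map_one]; exact Den.one _⟩
    | mul x y _ _ hx hy =>
      obtain ⟨B, hB⟩ := hx
      obtain ⟨C, hC⟩ := hy
      exact ⟨B * C, by rw [map_mul]; exact hB.mul hC⟩
    | inv x _ hx =>
      obtain ⟨B, hB⟩ := hx
      obtain ⟨C, hC, -⟩ := inv_den hU hM hB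
      exact ⟨C, hC⟩
  have hh : h ∈ Γ' := by
    rw [hΓ']
    exact Subgroup.subset_closure hhN
  have hφ' : ∀ g ∈ Γ', φ g ∈ Γ' := by
    have h1 : Γ' ≤ Γ'.comap φ := by
      conv_lhs => rw [hΓ']
      rw [Subgroup.closure_le]
      intro g hg
      show φ g ∈ Γ'
      rw [hΓ']
      refine Subgroup.subset_closure ?_
      show φ g ^ N ∈ Γ
      rw [← map_pow]
      exact hφ _ hg
    exact fun g hg => h1 hg
  have hfin : (p '' {g | g ∈ Γ'}).Finite :=
    (finite_image hU hΓ p (fun g g' hg => (hp g g').2 hg) hM).subset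
      (Set.image_mono fun g hg => hden g hg)
  have hmem : ∀ k : ℕ, f^[k] (p 1) ∈ p '' {g | g ∈ Γ'} := by
    intro k
    induction k with
    | zero => exact ⟨1, Γ'.one_mem, rfl⟩
    | succ k ih =>
      obtain ⟨g, hg, hgk⟩ := ih
      rw [Function.iterate_succ_apply', ← hgk, hfp]
      exact ⟨_, Γ'.mul_mem hh (hφ' g hg), rfl⟩
  obtain ⟨a, b, hab, he⟩ := hfin.exists_lt_map_eq_of_forall_mem (t := p '' {g | g ∈ Γ'})
    (f := fun k : ℕ => f^[k] (p 1)) hmem
  refine ⟨b - a, by omega, ?_⟩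
  have h1 : f^[a] (f^[b - a] (p 1)) = f^[a] (p 1) := by
    rw [← Function.iterate_add_apply, Nat.add_sub_cancel' hab.le]
    exact he.symm
  exact hf.iterate a h1

end Pool.Agent.R189.NC
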